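import Pool.Agent.TH137.TB.Gen

set_option autoImplicit false

namespace Pool.Agent.Results.MP_a2a8ea_mp.ExplicitUpperBound

open Pool.Agent.Results.MP_a2a8ea_mp.ExpLower Pool.Agent.TH137.TB

/-- The height in the bound. -/
def H (D : ℕ) : ℕ := (2 ^ (D ^ 2 * 4 ^ (D ^ 2 ^ D)) + 1) * 2 ^ D

/-- The explicit bound. -/
def G (D : ℕ) : ℕ := 2 ^ (D ^ (2 * H D)) + H D + 2 ^ (D + 1)

lemma Hb_eq (D : ℕ) : Hb D = H D := by
  unfold Hb H K
  rw [← mul_pow, show 2 * 2 = 4 by norm_num, ← mul_assoc, ← pow_two]

/-- `vec A (l, r, u, b)` is the physical vector of the one-site virtual configuration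
`(left, right, up, down) = (l, r, u, b)`; `CoordKernel A` says that the nonzero ones among these
`D ^ 4` vectors are linearly independent. For every normal tensor of this kind the injectivity index
is at most `G D`, and at most `3 * 2 ^ D` if some colour `c` satisfies `vec A (l, r, c, c) ≠ 0` for
all `l`, `r`. -/
theorem result :
    (∀ (d D : ℕ) (A : Tensor d D), 1 ≤ D → CoordKernel A → IsNormal A → injIndex A ≤ G D) ∧
    (∀ (d D : ℕ) (A : Tensor d D) (c : Fin D), CoordKernel A → IsNormal A →
      (∀ l r, vec A (l, r, c, c) ≠ 0) → injIndex A ≤ 3 * 2 ^ D) := by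
  refine ⟨fun d D A hD hA h => ?_, fun d D A c hA h hc => ?_⟩
  · have h1 := general_bound hD hA h
    rw [Hb_eq] at h1
    unfold G
    rw [pow_succ, mul_comm (2 ^ D) 2]
    exact h1
  · rw [index_eq_supp hA]
    exact vacuum_bound (normal_supp h) c hc

end Pool.Agent.Results.MP_a2a8ea_mp.ExplicitUpperBound
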